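import Pool.Agent.H789R5.RF.Rank
import Pool.Agent.H283R2.DR.TaskC

/-!
# Motions: submodularity, gluing along a complete graph, symmetry, induced subgraphs
-/

set_option autoImplicit false
set_option linter.unusedSectionVars false

namespace Pool.Agent.Q327.TDK

open Finset Matrix Pool.Agent.H789R5 Pool.Agent.H283R2.DR

variable {V : Type} {d : ℕ}

/-- the edges of `G` inside `U` -/
def ins (G : SimpleGraph V) (U : Finset V) : SimpleGraph V where
  Adj a b := G.Adj a b ∧ a ∈ U ∧ b ∈ U
  symm := ⟨fun _ _ h => ⟨h.1.symm, h.2.2, h.2.1⟩⟩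
  loopless := ⟨fun _ h => h.1.ne rfl⟩

variable [Fintype V]

theorem mot_sup (G H : SimpleGraph V) (p : V → Fin d → ℝ) :
    Mot (G ⊔ H) p = Mot G p ⊓ Mot H p := by
  ext q
  rw [Submodule.mem_inf, mem_mot, mem_mot, mem_mot]
  constructor
  · intro h
    exact ⟨fun u v huv => h u v (Or.inl huv), fun u v huv => h u v (Or.inr huv)⟩
  · rintro ⟨h1, h2⟩ u v (huv | huv)
    · exact h1 u v huv
    · exact h2 u v huv

/-- submodularity -/
theorem mo_submod (p : V → Fin d → ℝ) {H H' : SimpleGraph V} (E : SimpleGraph V) (h : H ≤ H') :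
    mo H' p + mo (H ⊔ E) p ≤ mo H p + mo (H' ⊔ E) p := by
  have h1 := Submodule.finrank_sup_add_finrank_inf_eq (Mot H' p) (Mot (H ⊔ E) p)
  have h2 : Mot H' p ⊓ Mot (H ⊔ E) p = Mot (H' ⊔ E) p := by
    rw [mot_sup, mot_sup, ← inf_assoc, inf_eq_left.2 (mot_anti h p)]
  have h3 : Mot H' p ⊔ Mot (H ⊔ E) p ≤ Mot H p :=
    sup_le (mot_anti h p) (mot_anti le_sup_left p)
  have h4 := Submodule.finrank_mono h3
  rw [h2] at h1
  unfold mo
  omega

/-- motions of a complete graph are trivial up to vector fields that vanish on it -/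
theorem exists_triv {p : V → Fin d → ℝ} (hp : MG p) (S : Finset V) {q : V → Fin d → ℝ}
    (hq : q ∈ Mot (ins ⊤ S) p) : ∃ t : V → Fin d → ℝ, (∀ G : SimpleGraph V, t ∈ Mot G p) ∧
      ∀ v ∈ S, q v = t v := by
  have h1 := rigid_complete hp.toGen (ins ⊤ S) S (fun u hu v hv huv => ⟨huv, hu, hv⟩)
  rw [mem_mot] at hq
  obtain ⟨A, b, hA, hb⟩ := h1 q (fun u _ v _ huv => hq u v huv)
  refine ⟨TA.triv p (⟨A, hA⟩, b), fun G => ?_, fun v hv => hb v hv⟩
  exact TA.range_triv_le G p ⟨_, rfl⟩

/-- gluing along a complete graph -/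
theorem mo_glue {p : V → Fin d → ℝ} (hp : MG p) {H E : SimpleGraph V} {S C : Finset V}
    (hSC : Disjoint C S) (hH : ∀ a b, H.Adj a b → a ∉ C)
    (hE : ∀ a b, E.Adj a b → a ∈ C ∨ a ∈ S) :
    mo (ins ⊤ S) p + mo (H ⊔ ins ⊤ S ⊔ E) p ≤ mo (H ⊔ ins ⊤ S) p + mo (ins ⊤ S ⊔ E) p := by
  classical
  have h1 := Submodule.finrank_sup_add_finrank_inf_eq (Mot (H ⊔ ins ⊤ S) p) (Mot (ins ⊤ S ⊔ E) p)
  have h2 : Mot (H ⊔ ins ⊤ S) p ⊓ Mot (ins ⊤ S ⊔ E) p = Mot (H ⊔ ins ⊤ S ⊔ E) p := by
    rw [mot_sup, mot_sup, mot_sup, mot_sup]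
    ext q
    simp only [Submodule.mem_inf]
    tauto
  have h3 : Mot (ins ⊤ S) p ≤ Mot (H ⊔ ins ⊤ S) p ⊔ Mot (ins ⊤ S ⊔ E) p := by
    intro q hq
    obtain ⟨t, ht, hqt⟩ := exists_triv hp S hq
    have e : q = (t + fun v => if v ∈ C then q v - t v else 0) +
        fun v => if v ∈ C then 0 else q v - t v := by
      funext v
      by_cases hv : v ∈ C
      · simp [hv]
      · simp [hv]
    rw [e]
    refine Submodule.add_mem_sup (Submodule.add_mem _ (ht _) ?_) ?_
    · rw [mem_mot]
      rintro u v (huv | ⟨_, hu, hv⟩) <;> beta_reduce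
      · rw [if_neg (hH u v huv), if_neg (hH v u huv.symm)]
        simp
      · rw [if_neg (fun h => (Finset.disjoint_left.1 hSC h hu)),
          if_neg (fun h => (Finset.disjoint_left.1 hSC h hv))]
        simp
    · rw [mem_mot]
      have hz : ∀ u, u ∈ C ∨ u ∈ S → (if u ∈ C then 0 else q u - t u) = 0 := by
        intro u hu
        by_cases h : u ∈ C
        · rw [if_pos h]
        · rw [if_neg h, hqt u (hu.resolve_left h), sub_self]
      rintro u v (⟨_, hu, hv⟩ | huv) <;> beta_reduce
      · rw [hz u (Or.inr hu), hz v (Or.inr hv)]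
        simp
      · rw [hz u (hE u v huv), hz v (hE v u huv.symm)]
        simp
  have h4 := Submodule.finrank_mono h3
  rw [h2] at h1
  unfold mo
  omega

/-- symmetry -/
theorem mo_perm_le {p : V → Fin d → ℝ} (hp : MG p) {H H' : SimpleGraph V} (τ : V ≃ V)
    (h : ∀ a b, H'.Adj a b → H.Adj (τ a) (τ b)) (h' : ∀ a b, H.Adj (τ a) (τ b) → H'.Adj a b) :
    mo H' p ≤ mo H p := by
  refine (hp.min H' (fun v => p (τ v))).trans (le_of_eq ?_)
  have h1 : Mot H' (fun v => p (τ v)) =
      (Mot H p).map (LinearEquiv.funCongrLeft ℝ (Fin d → ℝ) τ).toLinearMap := by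
    ext q
    rw [Submodule.mem_map]
    constructor
    · intro hq
      refine ⟨fun v => q (τ.symm v), ?_, ?_⟩
      · rw [mem_mot] at hq ⊢
        intro u v huv
        have h2 := hq (τ.symm u) (τ.symm v) (h' _ _ (by simpa using huv))
        simpa using h2
      · funext v
        show q (τ.symm (τ v)) = q v
        rw [Equiv.symm_apply_apply]
    · rintro ⟨q', hq', rfl⟩
      rw [mem_mot] at hq' ⊢
      intro u v huv
      exact hq' _ _ (h u v huv)
  unfold mo
  rw [h1]
  exact LinearEquiv.finrank_map_eq _ _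

theorem mo_perm {p : V → Fin d → ℝ} (hp : MG p) {H H' : SimpleGraph V} (τ : V ≃ V)
    (h : ∀ a b, H'.Adj a b ↔ H.Adj (τ a) (τ b)) : mo H' p = mo H p := by
  refine le_antisymm (mo_perm_le hp τ (fun a b => (h a b).1) (fun a b => (h a b).2)) ?_
  refine mo_perm_le hp τ.symm (fun a b hab => ?_) (fun a b hab => ?_)
  · rw [h]
    simpa using hab
  · rw [h] at hab
    simpa using hab

/-! ### Induced subgraphs -/

omit [Fintype V] in
theorem mem_mot_ins {G : SimpleGraph V} {U : Finset V} {p q : V → Fin d → ℝ} :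
    q ∈ Mot (ins G U) p ↔
      (fun x : (U : Set V) => q x) ∈ Mot (G.induce (U : Set V)) (fun x => p x) := by
  rw [mem_mot, mem_mot]
  constructor
  · intro h u v huv
    exact h u v ⟨by simpa using huv, mem_coe.1 u.2, mem_coe.1 v.2⟩
  · rintro h u v ⟨huv, hu, hv⟩
    exact h ⟨u, mem_coe.2 hu⟩ ⟨v, mem_coe.2 hv⟩ (by simpa using huv)

/-- restriction of vector fields -/
noncomputable def res (d : ℕ) (U : Finset V) :
    (V → Fin d → ℝ) →ₗ[ℝ] (((U : Set V) : Type) → Fin d → ℝ) :=
  LinearMap.funLeft ℝ (Fin d → ℝ) (fun x : (U : Set V) => (x : V))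

omit [Fintype V] in
theorem res_apply (U : Finset V) (q : V → Fin d → ℝ) (x : (U : Set V)) : res d U q x = q x := rfl

omit [Fintype V] in
open Classical in
theorem res_surj (d : ℕ) (U : Finset V) : Function.Surjective (res d U) := by
  intro q
  refine ⟨fun v => if h : v ∈ (U : Set V) then q ⟨v, h⟩ else 0, ?_⟩
  funext x
  rw [res_apply]
  simp

open Classical in
theorem finrank_ker_res (d : ℕ) (U : Finset V) :
    Module.finrank ℝ (LinearMap.ker (res d U)) = d * (Uᶜ).card := by
  have h1 := LinearMap.finrank_range_add_finrank_ker (res d U)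
  rw [LinearMap.range_eq_top.2 (res_surj d U), finrank_top] at h1
  have h2 : Module.finrank ℝ (V → Fin d → ℝ) = d * Fintype.card V := finrank_all
  have h3 : Module.finrank ℝ (((U : Set V) : Type) → Fin d → ℝ) = d * Fintype.card (U : Set V) :=
    finrank_all
  rw [h2, h3] at h1
  have h4 : Fintype.card (U : Set V) = U.card := by simp
  rw [h4, ← card_add_card_compl U, mul_add] at h1
  omega

open Classical in
theorem mo_ins (G : SimpleGraph V) (U : Finset V) (p : V → Fin d → ℝ) :
    mo (ins G U) p = mo (G.induce (U : Set V)) (fun x => p x) + d * (Uᶜ).card := by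
  have hc : Mot (ins G U) p = (Mot (G.induce (U : Set V)) (fun x => p x)).comap (res d U) := by
    ext q
    rw [Submodule.mem_comap]
    exact mem_mot_ins
  have hker : LinearMap.ker (res d U) ≤ Mot (ins G U) p := by
    rw [hc]
    intro q hq
    rw [Submodule.mem_comap, LinearMap.mem_ker.1 hq]
    exact Submodule.zero_mem _
  let f := (res d U).domRestrict (Mot (ins G U) p)
  have h1 := LinearMap.finrank_range_add_finrank_ker f
  have h2 : LinearMap.range f = Mot (G.induce (U : Set V)) (fun x => p x) := by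
    ext q
    constructor
    · rintro ⟨q', rfl⟩
      exact mem_mot_ins.1 q'.2
    · intro hq
      obtain ⟨q', hq'⟩ := res_surj d U q
      refine ⟨⟨q', ?_⟩, hq'⟩
      rw [hc, Submodule.mem_comap, hq']
      exact hq
  have h3 : Module.finrank ℝ (LinearMap.ker f) = d * (Uᶜ).card := by
    rw [← finrank_ker_res d U, ← Submodule.finrank_map_subtype_eq (Mot (ins G U) p)
      (LinearMap.ker f)]
    have h4 : (LinearMap.ker f).map (Mot (ins G U) p).subtype = LinearMap.ker (res d U) := by
      ext q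
      constructor
      · rintro ⟨q', hq', rfl⟩
        exact hq'
      · intro hq
        exact ⟨⟨q, hker hq⟩, hq, rfl⟩
    rw [h4]
  rw [h2, h3] at h1
  exact h1.symm

/-- the generic rank in `ℝ^d` of the subgraph of `G` induced on `U` -/
noncomputable def rk (d : ℕ) (G : SimpleGraph V) (U : Finset V) : ℕ :=
  letI : Fintype (U : Set V) := Fintype.ofFinite _
  genRank d (G.induce (U : Set V))

theorem rk_add {p : V → Fin d → ℝ} (hp : MG p) (G : SimpleGraph V) (U : Finset V) :
    rk d G U + mo (ins G U) p = d * Fintype.card V := by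
  classical
  unfold rk
  have hF : (Fintype.ofFinite (U : Set V)) = (inferInstance : Fintype (U : Set V)) :=
    Subsingleton.elim _ _
  rw [hF]
  have h4 : Fintype.card (U : Set V) = U.card := by simp
  have h5 := card_add_card_compl U
  have h0 := rank_add_mo (G.induce (U : Set V)) (fun x : (U : Set V) => p x)
  rw [h4] at h0
  have h6 : genRank d (G.induce (U : Set V)) =
      (rigidityMatrix (G.induce (U : Set V)) (fun x : (U : Set V) => p x)).rank := by
    apply IsGreatest.csSup_eq
    refine ⟨⟨_, rfl⟩, ?_⟩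
    rintro _ ⟨p', rfl⟩
    have h1 := rank_add_mo (G.induce (U : Set V)) p'
    rw [h4] at h1
    obtain ⟨p'', hp''⟩ := res_surj d U p'
    have h5 := mo_ins G U p
    have h6 := mo_ins G U p''
    have h7 : (fun x : (U : Set V) => p'' x) = p' := by
      rw [← hp'']
      rfl
    rw [h7] at h6
    have h8 := hp.min (ins G U) p''
    show (rigidityMatrix (G.induce (U : Set V)) p').rank ≤ _
    omega
  rw [h6, mo_ins, ← h5, mul_add]
  omega

/-- rigidity of an induced subgraph in terms of its rank -/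
theorem rigid_iff_rk (d : ℕ) (G : SimpleGraph V) {U : Finset V} (hU : d ≤ U.card) :
    rk d G U + d * (d + 1) / 2 ≤ d * U.card ∧
    (GenRigid d (G.induce (U : Set V)) ↔ rk d G U + d * (d + 1) / 2 = d * U.card) := by
  classical
  unfold rk
  have hF : (Fintype.ofFinite (U : Set V)) = (inferInstance : Fintype (U : Set V)) :=
    Subsingleton.elim _ _
  rw [hF]
  have h4 : Fintype.card (U : Set V) = U.card := by simp
  obtain ⟨p', hp'⟩ := exists_mg (U : Set V) d
  have h1 := genRank_add hp' (G.induce (U : Set V))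
  rw [h4] at h1
  have h2 : d * (d + 1) / 2 ≤ mo (G.induce (U : Set V)) p' := by
    have h3 : Module.finrank ℝ (LinearMap.range (TA.triv p')) = d * (d + 1) / 2 := by
      rw [LinearMap.finrank_range_of_inj (triv_inj hp' (by rw [h4]; exact hU)), finrank_triv]
    rw [← h3]
    exact Submodule.finrank_mono (TA.range_triv_le _ p')
  refine ⟨by omega, ?_⟩
  rw [genRigid_iff hp' (by rw [h4]; exact hU)]
  omega

end Pool.Agent.Q327.TDK
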