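import Pool.Agent.Q327.TDK.Rule

/-!
# Reductions, and the kernel for bounded treedepth
-/

set_option autoImplicit false
set_option linter.unusedSectionVars false

namespace Pool.Agent.Q327.TDK

open Finset Matrix Pool.Agent.H789R5 Pool.Agent.H283R2.DR

variable {V : Type}

/-- The piece `C` of `W`, attached along a set `S` with at most `s` vertices, has at most `N`
vertices and can be removed: there are `d |S|` further pieces, disjoint from `C` and from each other,
which are attached to `S` in the same way. -/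
def Removable (d s N : ℕ) (G : SimpleGraph V) (W S C : Finset V) : Prop :=
  S ⊆ W ∧ S.card ≤ s ∧ C.card ≤ N ∧ Piece G W S C ∧
  ∃ D : Fin (d * S.card) → Finset V,
    (∀ i, Piece G W S (D i) ∧ Disjoint C (D i) ∧ Same G S C (D i)) ∧
    ∀ i j, i ≠ j → Disjoint (D i) (D j)

open Classical in
/-- `Reduces d s N G W W' c`: the vertex set `W'` arises from `W` by successive removal of removable
pieces, and `c` is the sum of their gains; the gain of the piece `C` attached along `S` is the
generic rank of the graph on `S ∪ C` with all edges inside `S` added, minus the generic rank of the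
complete graph on `S`. -/
inductive Reduces [Fintype V] (d s N : ℕ) (G : SimpleGraph V) (W : Finset V) :
    Finset V → ℕ → Prop
  | refl : Reduces d s N G W W 0
  | step {W' S C : Finset V} {c : ℕ} : Reduces d s N G W W' c → Removable d s N G W' S C →
      Reduces d s N G W (W' \ C) (c + (rk d (fill G S) (S ∪ C) - rk d ⊤ S))

theorem Removable.mono {d s s' N N' : ℕ} {G : SimpleGraph V} {W S C : Finset V}
    (h : Removable d s N G W S C) (hs : s ≤ s') (hN : N ≤ N') : Removable d s' N' G W S C :=
  ⟨h.1, h.2.1.trans hs, h.2.2.1.trans hN, h.2.2.2⟩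

section

variable [Fintype V]

theorem Reduces.mono {d s s' N N' : ℕ} {G : SimpleGraph V} {W W' : Finset V} {c : ℕ}
    (h : Reduces d s N G W W' c) (hs : s ≤ s') (hN : N ≤ N') : Reduces d s' N' G W W' c := by
  induction h with
  | refl => exact .refl
  | step _ h2 ih => exact .step ih (h2.mono hs hN)

theorem Reduces.trans {d s N : ℕ} {G : SimpleGraph V} {W W' W'' : Finset V} {c c' : ℕ}
    (h : Reduces d s N G W W' c) (h' : Reduces d s N G W' W'' c') :
    Reduces d s N G W W'' (c + c') := by
  induction h' with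
  | refl => exact h
  | step _ h2 ih =>
    rw [← add_assoc]
    exact .step ih h2

open Classical in
/-- one step -/
theorem step_rk {d s N : ℕ} {G : SimpleGraph V} {W S C : Finset V}
    (h : Removable d s N G W S C) :
    rk d ⊤ S ≤ rk d (fill G S) (S ∪ C) ∧
    rk d (fill G S) (S ∪ C) ≤ rk d ⊤ S + d * C.card ∧
    rk d G W + rk d ⊤ S = rk d G (W \ C) + rk d (fill G S) (S ∪ C) := by
  obtain ⟨hS, _, _, hC, D, hD, hDD⟩ := h
  obtain ⟨p, hp⟩ := exists_mg V d
  have h1 := rule_mo hp D hS hC (fun i => (hD i).1) (fun i => (hD i).2.1) hDD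
    (fun i => (hD i).2.2) le_rfl
  have h2 := rk_add hp G W
  have h3 := rk_add hp G (W \ C)
  have h4 := rk_add hp ⊤ S
  have h5 := rk_add hp (fill G S) (S ∪ C)
  rw [ins_fill G hC.disj] at h5
  have h6 := gain_mo hp G S C
  have h7 : mo (ins ⊤ S ⊔ att G S C) p ≤ mo (ins ⊤ S) p := mo_anti le_sup_left p
  refine ⟨by omega, by omega, by omega⟩

theorem Reduces.sub {d s N : ℕ} {G : SimpleGraph V} {W W' : Finset V} {c : ℕ}
    (h : Reduces d s N G W W' c) : W' ⊆ W := by
  classical
  induction h with
  | refl => exact subset_refl _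
  | step _ _ ih => exact sdiff_subset.trans ih

theorem Reduces.rank {d s N : ℕ} {G : SimpleGraph V} {W W' : Finset V} {c : ℕ}
    (h : Reduces d s N G W W' c) :
    rk d G W = rk d G W' + c ∧ c + d * W'.card ≤ d * W.card := by
  classical
  induction h with
  | refl => exact ⟨rfl, by omega⟩
  | @step W' S C c _ h2 ih =>
    obtain ⟨h3, h4, h5⟩ := step_rk h2
    have h6 : C ⊆ W' := h2.2.2.2.1.sub
    have h7 := card_sdiff_add_card_eq_card h6
    have h8 : d * W'.card = d * (W' \ C).card + d * C.card := by rw [← h7, mul_add]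
    refine ⟨?_, ?_⟩
    · omega
    · omega

theorem Reduces.rigid {d s N : ℕ} {G : SimpleGraph V} {W W' : Finset V} {c : ℕ}
    (h : Reduces d s N G W W' c) (hd : d ≤ W'.card) :
    GenRigid d (G.induce (W : Set V)) ↔
      GenRigid d (G.induce (W' : Set V)) ∧ c + d * W'.card = d * W.card := by
  have h1 := rigid_iff_rk d G hd
  have h2 := rigid_iff_rk d G (hd.trans (card_le_card h.sub))
  have h3 := h.rank
  rw [h1.2, h2.2]
  omega

theorem rk_univ (d : ℕ) (G : SimpleGraph V) : rk d G univ = genRank d G := by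
  obtain ⟨p, hp⟩ := exists_mg V d
  have h1 := rk_add hp G univ
  have h2 := genRank_add hp G
  have h3 : ins G univ = G := by
    ext a b
    show (G.Adj a b ∧ a ∈ univ ∧ b ∈ univ) ↔ _
    simp
  rw [h3] at h1
  omega

theorem rk_empty (d : ℕ) (G : SimpleGraph V) : rk d G ∅ = 0 := by
  classical
  obtain ⟨p, hp⟩ := exists_mg V d
  have h1 := rk_add hp G ∅
  have h2 := mo_ins G ∅ p
  rw [compl_empty, card_univ] at h2
  omega

end

/-! ### Codes of pieces -/

/-- codes for the ways in which at most `n` vertices can be attached to at most `k` vertices -/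
abbrev Code (n k : ℕ) : Type := Fin (n + 1) × (Fin n → Fin n → Prop) × (Fin n → Fin k → Prop)

open Classical in
theorem exists_pos (B : Finset V) : ∃ pos : V → ℕ, Set.InjOn pos B ∧
    (∀ x ∈ B, pos x < B.card) ∧ ∀ i < B.card, ∃ x ∈ B, pos x = i := by
  refine ⟨fun x => if h : x ∈ B then (B.equivFin ⟨x, h⟩ : ℕ) else 0, ?_, ?_, ?_⟩
  · intro x hx y hy hxy
    have hx' : x ∈ B := hx
    have hy' : y ∈ B := hy
    simp only [dif_pos hx', dif_pos hy'] at hxy
    have := B.equivFin.injective (Fin.ext hxy)
    exact congrArg Subtype.val this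
  · intro x hx
    simp only [dif_pos hx]
    exact (B.equivFin ⟨x, hx⟩).2
  · intro i hi
    refine ⟨(B.equivFin.symm ⟨i, hi⟩ : V), (B.equivFin.symm ⟨i, hi⟩).2, ?_⟩
    simp

theorem exists_code (n k : ℕ) (G : SimpleGraph V) (S : Finset V) (hS : S.card ≤ k) :
    ∃ code : Finset V → Code n k, ∀ B B' : Finset V, B.card ≤ n → B'.card ≤ n →
      code B = code B' → Same G S B B' := by
  classical
  choose pos hinj hlt hsurj using fun B : Finset V => exists_pos B
  refine ⟨fun B => (⟨min B.card n, by omega⟩,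
    fun i j => ∃ x ∈ B, ∃ y ∈ B, pos B x = i ∧ pos B y = j ∧ G.Adj x y,
    fun i l => ∃ x ∈ B, ∃ s ∈ S, pos B x = i ∧ pos S s = l ∧ G.Adj x s), ?_⟩
  intro B B' hB hB' h
  have h1 : B.card = B'.card := by
    have := congrArg (fun c => (c.1 : ℕ)) h
    simp only at this
    omega
  rcases isEmpty_or_nonempty V with hV | hV
  · have e1 : B = ∅ := eq_empty_of_isEmpty B
    have e2 : B' = ∅ := eq_empty_of_isEmpty B'
    refine ⟨id, ?_, fun x => hV.elim x, fun x => hV.elim x⟩
    rw [e1, e2]
    exact Set.bijOn_id _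
  have h2 : ∀ x ∈ B, ∃ x' ∈ B', pos B' x' = pos B x := by
    intro x hx
    exact hsurj B' _ (by rw [← h1]; exact hlt B x hx)
  choose! f hf hpf using h2
  refine ⟨f, ⟨fun x hx => hf x hx, ?_, ?_⟩, ?_, ?_⟩
  · intro x hx y hy hxy
    apply hinj B hx hy
    rw [← hpf x hx, ← hpf y hy, hxy]
  · intro y hy
    obtain ⟨x, hx, hxy⟩ := hsurj B (pos B' y) (by rw [h1]; exact hlt B' y hy)
    refine ⟨x, hx, ?_⟩
    apply hinj B' (hf x hx) hy
    rw [hpf x hx, hxy]
  · intro x hx y hy
    have h3 := congrFun (congrFun (congrArg (fun c => c.2.1) h)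
      ⟨pos B x, (hlt B x hx).trans_le hB⟩) ⟨pos B y, (hlt B y hy).trans_le hB⟩
    simp only at h3
    constructor
    · intro hadj
      have h4 : ∃ x' ∈ B', ∃ y' ∈ B', pos B' x' = pos B x ∧ pos B' y' = pos B y ∧ G.Adj x' y' :=
        ⟨f x, hf x hx, f y, hf y hy, hpf x hx, hpf y hy, hadj⟩
      rw [← h3] at h4
      obtain ⟨x', hx', y', hy', e1, e2, h5⟩ := h4
      rw [hinj B hx' hx e1, hinj B hy' hy e2] at h5
      exact h5
    · intro hadj
      have h4 : ∃ x' ∈ B, ∃ y' ∈ B, pos B x' = pos B x ∧ pos B y' = pos B y ∧ G.Adj x' y' :=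
        ⟨x, hx, y, hy, rfl, rfl, hadj⟩
      rw [h3] at h4
      obtain ⟨x', hx', y', hy', e1, e2, h5⟩ := h4
      rw [hinj B' hx' (hf x hx) (e1.trans (hpf x hx).symm),
        hinj B' hy' (hf y hy) (e2.trans (hpf y hy).symm)] at h5
      exact h5
  · intro x hx s hs
    have h3 := congrFun (congrFun (congrArg (fun c => c.2.2) h)
      ⟨pos B x, (hlt B x hx).trans_le hB⟩) ⟨pos S s, (hlt S s hs).trans_le hS⟩
    simp only at h3
    constructor
    · intro hadj
      have h4 : ∃ x' ∈ B', ∃ s' ∈ S, pos B' x' = pos B x ∧ pos S s' = pos S s ∧ G.Adj x' s' :=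
        ⟨f x, hf x hx, s, hs, hpf x hx, rfl, hadj⟩
      rw [← h3] at h4
      obtain ⟨x', hx', s', hs', e1, e2, h5⟩ := h4
      rw [hinj B hx' hx e1, hinj S hs' hs e2] at h5
      exact h5
    · intro hadj
      have h4 : ∃ x' ∈ B, ∃ s' ∈ S, pos B x' = pos B x ∧ pos S s' = pos S s ∧ G.Adj x' s' :=
        ⟨x, hx, s, hs, rfl, rfl, hadj⟩
      rw [h3] at h4
      obtain ⟨x', hx', s', hs', e1, e2, h5⟩ := h4
      rw [hinj B' hx' (hf x hx) (e1.trans (hpf x hx).symm), hinj S hs' hs e2] at h5
      exact h5

/-! ### Treedepth -/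

open Classical in
/-- treedepth at most `t` of the subgraph induced on `W`, recursively -/
def TD (G : SimpleGraph V) : ℕ → Finset V → Prop
  | 0, W => W = ∅
  | t + 1, W => ∃ r : V → V, (∀ u ∈ W, ∀ v ∈ W, G.Adj u v → r u = r v) ∧
      ∀ a, TD G t ((W.filter fun u => r u = a).erase a)

/-- The subgraph of `G` induced on `B` has treedepth at most `t`: there is a partial order on `B` in
which the elements below any element form a chain with at most `t` elements, and adjacent vertices
are comparable. -/
def TreedepthLE (t : ℕ) (G : SimpleGraph V) (B : Set V) : Prop :=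
  ∃ le : V → V → Prop, (∀ v ∈ B, le v v) ∧ (∀ u ∈ B, ∀ v ∈ B, le u v → le v u → u = v) ∧
    (∀ u ∈ B, ∀ v ∈ B, ∀ w ∈ B, le u v → le v w → le u w) ∧
    (∀ u ∈ B, ∀ v ∈ B, ∀ w ∈ B, le u w → le v w → le u v ∨ le v u) ∧
    (∀ v ∈ B, {u | u ∈ B ∧ le u v}.ncard ≤ t) ∧
    ∀ u ∈ B, ∀ v ∈ B, G.Adj u v → le u v ∨ le v u

open Classical in
theorem td_of_order (G : SimpleGraph V) (le : V → V → Prop) : ∀ (t : ℕ) (B : Finset V),
    (∀ v ∈ B, le v v) → (∀ u ∈ B, ∀ v ∈ B, le u v → le v u → u = v) →
    (∀ u ∈ B, ∀ v ∈ B, ∀ w ∈ B, le u v → le v w → le u w) →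
    (∀ u ∈ B, ∀ v ∈ B, ∀ w ∈ B, le u w → le v w → le u v ∨ le v u) →
    (∀ v ∈ B, (B.filter fun u => le u v).card ≤ t) →
    (∀ u ∈ B, ∀ v ∈ B, G.Adj u v → le u v ∨ le v u) → TD G t B := by
  intro t
  induction t with
  | zero =>
    intro B hr _ _ _ hc _
    show B = ∅
    rw [eq_empty_iff_forall_notMem]
    intro v hv
    have h1 := hc v hv
    rw [Nat.le_zero, card_eq_zero] at h1
    have h2 : v ∈ B.filter fun u => le u v := mem_filter.2 ⟨hv, hr v hv⟩
    rw [h1] at h2
    exact notMem_empty v h2
  | succ t ih =>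
    intro B hr ha ht hch hc hadj
    have hleast : ∀ u ∈ B, ∃ m ∈ B, le m u ∧ ∀ x ∈ B, le x u → le m x := by
      intro u hu
      obtain ⟨m, hm, hmin⟩ := (B.filter fun x => le x u).exists_min_image
        (fun m => ((B.filter fun x => le x u).filter fun x => le x m).card)
        ⟨u, mem_filter.2 ⟨hu, hr u hu⟩⟩
      obtain ⟨hmB, hmu⟩ := mem_filter.1 hm
      refine ⟨m, hmB, hmu, ?_⟩
      intro x hx hxu
      rcases hch m hmB x hx u hu hmu hxu with h | h
      · exact h
      · by_cases hxm : x = m
        · rw [hxm]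
          exact hr m hmB
        · exfalso
          have h1 := hmin x (mem_filter.2 ⟨hx, hxu⟩)
          have h2 : ((B.filter fun x => le x u).filter fun y => le y x) ⊂
              ((B.filter fun x => le x u).filter fun y => le y m) := by
            rw [ssubset_iff_of_subset]
            · refine ⟨m, mem_filter.2 ⟨hm, hr m hmB⟩, ?_⟩
              intro h3
              exact hxm (ha x hx m hmB h (mem_filter.1 h3).2)
            · intro y hy
              obtain ⟨h3, h4⟩ := mem_filter.1 hy
              exact mem_filter.2 ⟨h3, ht y (mem_filter.1 h3).1 x hx m hmB h4 h⟩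
          have h3 := card_lt_card h2
          omega
    choose! r hrB hru hrmin using hleast
    refine ⟨r, ?_, ?_⟩
    · have key : ∀ u ∈ B, ∀ v ∈ B, le u v → r u = r v := by
        intro u hu v hv huv
        apply ha _ (hrB u hu) _ (hrB v hv)
        · apply hrmin u hu _ (hrB v hv)
          have h1 : le (r v) (r u) := hrmin v hv _ (hrB u hu)
            (ht _ (hrB u hu) u hu v hv (hru u hu) huv)
          exact ht _ (hrB v hv) _ (hrB u hu) u hu h1 (hru u hu)
        · exact hrmin v hv _ (hrB u hu) (ht _ (hrB u hu) u hu v hv (hru u hu) huv)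
      intro u hu v hv huv
      rcases hadj u hu v hv huv with h | h
      · exact key u hu v hv h
      · exact (key v hv u hu h).symm
    · intro a
      have hsub : ((B.filter fun u => r u = a).erase a) ⊆ B :=
        (erase_subset _ _).trans (filter_subset _ _)
      apply ih
      · exact fun v hv => hr v (hsub hv)
      · exact fun u hu v hv => ha u (hsub hu) v (hsub hv)
      · exact fun u hu v hv w hw => ht u (hsub hu) v (hsub hv) w (hsub hw)
      · exact fun u hu v hv w hw => hch u (hsub hu) v (hsub hv) w (hsub hw)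
      · intro v hv
        have hvB := hsub hv
        obtain ⟨hva, hvf⟩ := mem_erase.1 hv
        have hrv : r v = a := (mem_filter.1 hvf).2
        have h1 : (((B.filter fun u => r u = a).erase a).filter fun u => le u v) ⊆
            (B.filter fun u => le u v).erase a := by
          intro x hx
          obtain ⟨h2, h3⟩ := mem_filter.1 hx
          exact mem_erase.2 ⟨(mem_erase.1 h2).1, mem_filter.2 ⟨hsub h2, h3⟩⟩
        have h2 := card_le_card h1
        have h3 : a ∈ B.filter fun u => le u v := by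
          rw [← hrv]
          exact mem_filter.2 ⟨hrB v hvB, hru v hvB⟩
        rw [card_erase_of_mem h3] at h2
        have h4 := hc v hvB
        omega
      · exact fun u hu v hv => hadj u (hsub hu) v (hsub hv)

open Classical in
theorem td_of_treedepth {G : SimpleGraph V} {t : ℕ} {B : Finset V}
    (h : TreedepthLE t G (B : Set V)) : TD G t B := by
  obtain ⟨le, h1, h2, h3, h4, h5, h6⟩ := h
  refine td_of_order G le t B h1 h2 h3 h4 ?_ h6
  intro v hv
  have := h5 v hv
  have e : {u | u ∈ (B : Set V) ∧ le u v} = ((B.filter fun u => le u v : Finset V) : Set V) := by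
    ext x
    simp
  rw [e, Set.ncard_coe_finset] at this
  exact this

end Pool.Agent.Q327.TDK
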