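import Pool.Agent.Q327.TDK.Kernel

/-!
# The kernel for bounded treedepth
-/

set_option autoImplicit false
set_option linter.unusedSectionVars false

namespace Pool.Agent.Q327.TDK

open Finset Matrix Pool.Agent.H789R5 Pool.Agent.H283R2.DR

variable {V : Type}

theorem Piece.restrict {G : SimpleGraph V} {W W' S B B' : Finset V} (h : Piece G W S B)
    (hW : W' ⊆ W) (hB : B' ⊆ B) (hsub : B' ⊆ W') (hin : ∀ y ∈ W', y ∈ B → y ∈ B') :
    Piece G W' S B' :=
  ⟨hsub, Finset.disjoint_of_subset_left hB h.disj, fun x hx y hy hxy =>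
    (h.nbr x (hB hx) y (hW hy) hxy).imp (fun h => hin y hy h) id⟩

section

variable [Fintype V]

open Classical in
/-- the second step: bounded pieces of one class -/
theorem second (d k n : ℕ) : ∃ M : ℕ, ∀ (V : Type) [Fintype V] (G : SimpleGraph V)
    (W S B : Finset V) (F : V → Finset V), S ⊆ W → S.card ≤ k → Piece G W S B →
    (∀ a, F a ⊆ B) → (∀ a b, a ≠ b → Disjoint (F a) (F b)) → (∀ a, (F a).card ≤ n) →
    (∀ a b, a ≠ b → ∀ x ∈ F a, ∀ y ∈ F b, ¬ G.Adj x y) →
    ∃ I : Finset V, I.card ≤ M ∧
      ∃ c, Reduces d k n G (W \ (B \ univ.biUnion F)) (W \ (B \ I.biUnion F)) c := by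
  haveI : Finite (Code n k) := inferInstance
  letI : Fintype (Code n k) := Fintype.ofFinite _
  refine ⟨Fintype.card (Code n k) * (d * k), ?_⟩
  intro V _ G W S B F hSW hSk hB hFB hFd hFn hFG
  obtain ⟨code, hcode⟩ := exists_code n k G S hSk
  -- minimal I
  have hex : ∃ m : ℕ, ∃ I : Finset V, I.card = m ∧
      ∃ c, Reduces d k n G (W \ (B \ univ.biUnion F)) (W \ (B \ I.biUnion F)) c :=
    ⟨_, univ, rfl, 0, .refl⟩
  obtain ⟨I, hIm, c, hI⟩ := Nat.find_spec hex
  refine ⟨I, ?_, c, hI⟩
  by_contra hlt
  push Not at hlt
  have hmap : ∀ a ∈ I, code (F a) ∈ (univ : Finset (Code n k)) := fun _ _ => mem_univ _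
  have hlt' : (univ : Finset (Code n k)).card * (d * k) < I.card := hlt
  obtain ⟨y, _, hy⟩ := exists_lt_card_fiber_of_mul_lt_card_of_maps_to hmap hlt'
  -- choose d*|S| + 1 elements of the fibre
  have hdS : d * S.card ≤ d * k := Nat.mul_le_mul_left _ hSk
  obtain ⟨J, hJ, hJc⟩ := exists_subset_card_eq
    (show d * S.card + 1 ≤ (I.filter fun a => code (F a) = y).card by omega)
  have e := J.equivFin
  rw [hJc] at e
  set a0 : V := (e.symm 0 : V) with ha0
  set D : Fin (d * S.card) → Finset V := fun i => F (e.symm i.succ : V) with hD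
  have hJI : ∀ x : J, (x : V) ∈ I ∧ code (F x) = y := fun x => mem_filter.1 (hJ x.2)
  have hmem : ∀ a ∈ I, F a ⊆ W \ (B \ I.biUnion F) := by
    intro a ha x hx
    rw [mem_sdiff, mem_sdiff, not_and, not_not]
    exact ⟨hB.sub (hFB a hx), fun _ => mem_biUnion.2 ⟨a, ha, hx⟩⟩
  have hpiece : ∀ a ∈ I, Piece G (W \ (B \ I.biUnion F)) S (F a) := by
    intro a ha
    refine ⟨hmem a ha, Finset.disjoint_of_subset_left (hFB a) hB.disj, ?_⟩
    intro x hx y hy hxy
    rw [mem_sdiff, mem_sdiff, not_and, not_not] at hy
    rcases hB.nbr x (hFB a hx) y hy.1 hxy with h | h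
    · obtain ⟨b, _, hb⟩ := mem_biUnion.1 (hy.2 h)
      by_cases hab : a = b
      · left
        rw [hab]
        exact hb
      · exact absurd hxy (hFG a b hab x hx y hb)
    · exact Or.inr h
  have hne : ∀ i : Fin (d * S.card), a0 ≠ (e.symm i.succ : V) := by
    intro i h
    have := e.symm.injective (Subtype.ext h)
    exact Fin.succ_ne_zero i this.symm
  have hSW' : S ⊆ W \ (B \ I.biUnion F) := by
    intro s hs
    rw [mem_sdiff, mem_sdiff]
    exact ⟨hSW hs, fun h => Finset.disjoint_left.1 hB.disj h.1 hs⟩
  have hrem : Removable d k n G (W \ (B \ I.biUnion F)) S (F a0) := by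
    refine ⟨hSW', hSk, hFn a0, hpiece a0 (hJI _).1, D, ?_, ?_⟩
    · intro i
      refine ⟨hpiece _ (hJI _).1, hFd _ _ (hne i), ?_⟩
      apply hcode _ _ (hFn _) (hFn _)
      rw [(hJI _).2, (hJI _).2]
    · intro i j hij
      apply hFd
      intro h
      have := e.symm.injective (Subtype.ext h)
      exact hij (Fin.succ_injective _ this)
  have hstep := Reduces.step hI hrem
  have hset : (W \ (B \ I.biUnion F)) \ F a0 = W \ (B \ (I.erase a0).biUnion F) := by
    ext x
    simp only [mem_sdiff, mem_biUnion, mem_erase, not_and, not_not]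
    constructor
    · rintro ⟨⟨h1, h2⟩, h3⟩
      refine ⟨h1, fun h4 => ?_⟩
      obtain ⟨b, hb, hxb⟩ := h2 h4
      refine ⟨b, ⟨?_, hb⟩, hxb⟩
      rintro rfl
      exact h3 hxb
    · rintro ⟨h1, h2⟩
      refine ⟨⟨h1, fun h4 => ?_⟩, fun h3 => ?_⟩
      · obtain ⟨b, hb, hxb⟩ := h2 h4
        exact ⟨b, hb.2, hxb⟩
      · obtain ⟨b, hb, hxb⟩ := h2 (hFB a0 h3)
        exact Finset.disjoint_left.1 (hFd _ _ (Ne.symm hb.1)) h3 hxb
  rw [hset] at hstep
  have h1 : (I.erase a0).card < Nat.find hex := by
    rw [← hIm]
    exact card_erase_lt_of_mem (hJI _).1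
  exact Nat.find_min hex h1 ⟨I.erase a0, rfl, _, hstep⟩

end

open Classical in
/-- **the kernel** -/
theorem kernel (d t : ℕ) : ∀ k : ℕ, ∃ N : ℕ, ∀ (V : Type) [Fintype V] (G : SimpleGraph V)
    (W S B : Finset V), S ⊆ W → S.card ≤ k → Piece G W S B → TD G t B →
    ∃ B' ⊆ B, B'.card ≤ N ∧ ∃ c, Reduces d (k + t) N G W (W \ (B \ B')) c := by
  induction t with
  | zero =>
    intro k
    refine ⟨0, fun V _ G W S B _ _ _ hB => ⟨∅, empty_subset _, le_rfl, 0, ?_⟩⟩
    have hB' : B = ∅ := hB
    rw [hB', sdiff_empty, sdiff_empty]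
    exact .refl
  | succ t ih =>
    intro k
    obtain ⟨N', hN'⟩ := ih (k + 1)
    obtain ⟨M, hM⟩ := second d k (N' + 1)
    refine ⟨(M + 1) * (N' + 1), ?_⟩
    have hle1 : N' + 1 ≤ (M + 1) * (N' + 1) := Nat.le_mul_of_pos_left _ (Nat.succ_pos M)
    have hle2 : N' ≤ (M + 1) * (N' + 1) := by omega
    intro V _ G W S B hSW hSk hB hTD
    obtain ⟨r, hr, hTDa⟩ := hTD
    set Part : V → Finset V := fun a => B.filter fun u => r u = a with hPart
    have mPart : ∀ a x, x ∈ Part a ↔ x ∈ B ∧ r x = a := fun a x => mem_filter
    -- step 1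
    have step1 : ∀ A : Finset V, ∃ F : V → Finset V, (∀ a, F a ⊆ Part a) ∧
        (∀ a ∈ A, (F a).card ≤ N' + 1) ∧ (∀ a ∉ A, F a = Part a) ∧
        ∃ c, Reduces d (k + (t + 1)) N' G W (W \ (B \ univ.biUnion F)) c := by
      intro A
      induction A using Finset.induction_on with
      | empty =>
        refine ⟨Part, fun _ => subset_refl _, fun a ha => absurd ha (notMem_empty a),
          fun _ _ => rfl, 0, ?_⟩
        have h1 : W \ (B \ univ.biUnion Part) = W := by
          ext x
          simp only [mem_sdiff, mem_biUnion, mem_univ, true_and, not_and, not_not, mPart]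
          exact ⟨fun h => h.1, fun h => ⟨h, fun hx => ⟨r x, hx, rfl⟩⟩⟩
        rw [h1]
        exact .refl
      | @insert a A ha ihA =>
        obtain ⟨F, hF1, hF2, hF3, c, hc⟩ := ihA
        set W1 := W \ (B \ univ.biUnion F) with hW1
        have hFa : F a = Part a := hF3 a ha
        set R := Part a ∩ {a} with hR
        have hRc : R.card ≤ 1 := (card_le_card inter_subset_right).trans (by simp)
        have mW1 : ∀ x, x ∈ W1 ↔ x ∈ W ∧ (x ∈ B → x ∈ F (r x)) := by
          intro x
          rw [hW1]
          simp only [mem_sdiff, mem_biUnion, mem_univ, true_and, not_and, not_not]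
          constructor
          · rintro ⟨h1, h2⟩
            refine ⟨h1, fun h3 => ?_⟩
            obtain ⟨b, hb⟩ := h2 h3
            have := ((mPart b x).1 (hF1 b hb)).2
            rw [this]
            exact hb
          · rintro ⟨h1, h2⟩
            exact ⟨h1, fun h3 => ⟨r x, h2 h3⟩⟩
        have hP1 : Part a ⊆ W1 := by
          intro x hx
          rw [mW1]
          obtain ⟨h1, h2⟩ := (mPart a x).1 hx
          refine ⟨hB.sub h1, fun _ => ?_⟩
          rw [h2, hFa]
          exact hx
        have hS1 : S ∪ R ⊆ W1 := by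
          intro x hx
          rcases mem_union.1 hx with h | h
          · rw [mW1]
            exact ⟨hSW h, fun h' => absurd h (fun h'' => Finset.disjoint_left.1 hB.disj h' h'')⟩
          · exact hP1 (mem_inter.1 h).1
        have hB1 : Piece G W1 (S ∪ R) ((Part a).erase a) := by
          refine ⟨(erase_subset _ _).trans hP1, ?_, ?_⟩
          · rw [Finset.disjoint_left]
            intro x hx hx'
            obtain ⟨h1, h2⟩ := mem_erase.1 hx
            rcases mem_union.1 hx' with h | h
            · exact Finset.disjoint_left.1 hB.disj ((mPart a x).1 h2).1 h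
            · exact h1 (mem_singleton.1 (mem_inter.1 h).2)
          · intro x hx y hy hxy
            obtain ⟨h1, h2⟩ := mem_erase.1 hx
            obtain ⟨h3, h4⟩ := (mPart a x).1 h2
            rcases hB.nbr x h3 y ((mW1 y).1 hy).1 hxy with h | h
            · have h5 : y ∈ Part a := (mPart a y).2 ⟨h, by rw [← hr x h3 y h hxy]; exact h4⟩
              by_cases hya : y = a
              · right
                exact mem_union_right _ (mem_inter.2 ⟨h5, mem_singleton.2 hya⟩)
              · left
                exact mem_erase.2 ⟨hya, h5⟩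
            · right
              exact mem_union_left _ h
        obtain ⟨B', hB'1, hB'2, c', hc'⟩ := hN' V G W1 (S ∪ R) ((Part a).erase a) hS1
          ((card_union_le _ _).trans (by omega)) hB1 (hTDa a)
        have hk : k + 1 + t = k + (t + 1) := by omega
        rw [hk] at hc'
        have hB'R : B' ∪ R ⊆ Part a :=
          union_subset (hB'1.trans (erase_subset _ _)) inter_subset_left
        refine ⟨Function.update F a (B' ∪ R), ?_, ?_, ?_, c + c', ?_⟩
        · intro b
          by_cases hb : b = a
          · rw [hb, Function.update_self]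
            exact hB'R
          · rw [Function.update_of_ne hb]
            exact hF1 b
        · intro b hb
          by_cases hba : b = a
          · rw [hba, Function.update_self]
            exact (card_union_le _ _).trans (by omega)
          · rw [Function.update_of_ne hba]
            exact hF2 b (mem_of_mem_insert_of_ne hb hba)
        · intro b hb
          have hba : b ≠ a := fun h => hb (h ▸ mem_insert_self _ _)
          rw [Function.update_of_ne hba]
          exact hF3 b (fun h => hb (mem_insert_of_mem h))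
        · have hset : W1 \ ((Part a).erase a \ B') =
              W \ (B \ univ.biUnion (Function.update F a (B' ∪ R))) := by
            ext x
            have hx1 : x ∈ univ.biUnion (Function.update F a (B' ∪ R)) ↔
                (r x = a ∧ x ∈ B' ∪ R) ∨ (r x ≠ a ∧ x ∈ F (r x)) := by
              simp only [mem_biUnion, mem_univ, true_and]
              constructor
              · rintro ⟨b, hb⟩
                by_cases hba : b = a
                · rw [hba, Function.update_self] at hb
                  exact Or.inl ⟨((mPart a x).1 (hB'R hb)).2, hb⟩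
                · rw [Function.update_of_ne hba] at hb
                  have h1 := ((mPart b x).1 (hF1 b hb)).2
                  right
                  rw [h1]
                  exact ⟨hba, hb⟩
              · rintro (⟨_, h2⟩ | ⟨h1, h2⟩)
                · exact ⟨a, by rw [Function.update_self]; exact h2⟩
                · exact ⟨r x, by rw [Function.update_of_ne h1]; exact h2⟩
            rw [mem_sdiff, mW1, mem_sdiff (s := W), mem_sdiff (s := B), hx1, mem_sdiff, mem_erase,
              mPart]
            have h3 : x ∈ B' → x ∈ B ∧ r x = a ∧ x ≠ a := by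
              intro h
              obtain ⟨h1, h2⟩ := mem_erase.1 (hB'1 h)
              exact ⟨((mPart a x).1 h2).1, ((mPart a x).1 h2).2, h1⟩
            have h4 : x ∈ R ↔ (x ∈ B ∧ r x = a) ∧ x = a := by
              rw [hR, mem_inter, mem_singleton, mPart]
            have h5 : r x = a → (x ∈ F (r x) ↔ x ∈ B) := by
              intro h
              rw [h, hFa, mPart]
              exact ⟨fun h => h.1, fun h' => ⟨h', h⟩⟩
            rw [mem_union, h4]
            by_cases e1 : r x = a
            · have h6 := h5 e1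
              tauto
            · tauto
          rw [← hset]
          exact hc.trans hc'
    obtain ⟨F, hF1, hF2, _, c, hc⟩ := step1 univ
    -- step 2
    obtain ⟨I, hI, c', hc'⟩ := hM V G W S B F hSW hSk hB
      (fun a => (hF1 a).trans (filter_subset _ _))
      (fun a b hab => by
        rw [Finset.disjoint_left]
        intro x hx hx'
        apply hab
        rw [← ((mPart a x).1 (hF1 a hx)).2, ← ((mPart b x).1 (hF1 b hx')).2])
      (fun a => hF2 a (mem_univ a))
      (fun a b hab x hx y hy hxy => by
        obtain ⟨h1, h2⟩ := (mPart a x).1 (hF1 a hx)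
        obtain ⟨h3, h4⟩ := (mPart b y).1 (hF1 b hy)
        apply hab
        rw [← h2, ← h4]
        exact hr x h1 y h3 hxy)
    refine ⟨I.biUnion F, ?_, ?_, c + c', ?_⟩
    · rw [biUnion_subset]
      exact fun a _ => (hF1 a).trans (filter_subset _ _)
    · refine (card_biUnion_le_card_mul I F (N' + 1) (fun a _ => hF2 a (mem_univ a))).trans ?_
      exact Nat.mul_le_mul_right _ (by omega)
    · exact (hc.mono le_rfl hle2).trans (hc'.mono (by omega) hle1)

end Pool.Agent.Q327.TDK
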