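import Pool.Agent.Q327.TDK.Base

/-!
# Removing one of many isomorphic pieces attached to the same set
-/

set_option autoImplicit false
set_option linter.unusedSectionVars false

namespace Pool.Agent.Q327.TDK

open Finset Matrix Pool.Agent.H789R5 Pool.Agent.H283R2.DR

variable {V : Type} {d : ℕ}

/-- `B` is a piece of `W`, attached along `S`: a part of `W` disjoint from `S` whose vertices have
no neighbours in `W` outside of `B ∪ S`. -/
structure Piece (G : SimpleGraph V) (W S B : Finset V) : Prop where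
  sub : B ⊆ W
  disj : Disjoint B S
  nbr : ∀ x ∈ B, ∀ y ∈ W, G.Adj x y → y ∈ B ∨ y ∈ S

/-- `B` and `B'` are attached to `S` in the same way: there is a bijection from `B` onto `B'` which
keeps all adjacencies inside `B` and between `B` and `S`. -/
def Same (G : SimpleGraph V) (S B B' : Finset V) : Prop :=
  ∃ f : V → V, Set.BijOn f B B' ∧ (∀ x ∈ B, ∀ y ∈ B, (G.Adj (f x) (f y) ↔ G.Adj x y)) ∧
    ∀ x ∈ B, ∀ s ∈ S, (G.Adj (f x) s ↔ G.Adj x s)

/-- the graph `G` with all edges inside `S` added -/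
def fill (G : SimpleGraph V) (S : Finset V) : SimpleGraph V where
  Adj a b := G.Adj a b ∨ (a ≠ b ∧ a ∈ S ∧ b ∈ S)
  symm := ⟨fun _ _ h => h.imp (fun h => h.symm) fun h => ⟨h.1.symm, h.2.2, h.2.1⟩⟩
  loopless := ⟨fun _ h => h.elim (fun h => h.ne rfl) fun h => h.1 rfl⟩

/-- the edges with an end in `B` and both ends in `B ∪ S` -/
def att (G : SimpleGraph V) (S B : Finset V) : SimpleGraph V where
  Adj a b := G.Adj a b ∧ ((a ∈ B ∧ (b ∈ B ∨ b ∈ S)) ∨ (b ∈ B ∧ (a ∈ B ∨ a ∈ S)))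
  symm := ⟨fun _ _ h => ⟨h.1.symm, h.2.symm⟩⟩
  loopless := ⟨fun _ h => h.1.ne rfl⟩

open Classical in
theorem ins_split {G : SimpleGraph V} {W S B U : Finset V} (h : Piece G W S B) (hU : U ⊆ W)
    (hB : B ⊆ U) (hS : S ⊆ U) : ins G U = ins G (U \ B) ⊔ att G S B := by
  ext a b
  show (G.Adj a b ∧ a ∈ U ∧ b ∈ U) ↔ ((G.Adj a b ∧ a ∈ U \ B ∧ b ∈ U \ B) ∨
    (G.Adj a b ∧ ((a ∈ B ∧ (b ∈ B ∨ b ∈ S)) ∨ (b ∈ B ∧ (a ∈ B ∨ a ∈ S)))))
  simp only [mem_sdiff]
  constructor
  · rintro ⟨hab, ha, hb⟩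
    by_cases h1 : a ∈ B
    · exact Or.inr ⟨hab, Or.inl ⟨h1, h.nbr a h1 b (hU hb) hab⟩⟩
    · by_cases h2 : b ∈ B
      · exact Or.inr ⟨hab, Or.inr ⟨h2, h.nbr b h2 a (hU ha) hab.symm⟩⟩
      · exact Or.inl ⟨hab, ⟨ha, h1⟩, ⟨hb, h2⟩⟩
  · rintro (⟨hab, ha, hb⟩ | ⟨hab, (⟨h1, h2⟩ | ⟨h1, h2⟩)⟩)
    · exact ⟨hab, ha.1, hb.1⟩
    · exact ⟨hab, hB h1, h2.elim (fun h => hB h) fun h => hS h⟩
    · exact ⟨hab, h2.elim (fun h => hB h) fun h => hS h, hB h1⟩

open Classical in
theorem ins_fill (G : SimpleGraph V) {S C : Finset V} (hSC : Disjoint C S) :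
    ins (fill G S) (S ∪ C) = ins ⊤ S ⊔ att G S C := by
  ext a b
  show ((G.Adj a b ∨ (a ≠ b ∧ a ∈ S ∧ b ∈ S)) ∧ a ∈ S ∪ C ∧ b ∈ S ∪ C) ↔
    ((a ≠ b ∧ a ∈ S ∧ b ∈ S) ∨
    (G.Adj a b ∧ ((a ∈ C ∧ (b ∈ C ∨ b ∈ S)) ∨ (b ∈ C ∧ (a ∈ C ∨ a ∈ S)))))
  simp only [mem_union]
  have hd : ∀ x, x ∈ C → x ∉ S := fun x hx => Finset.disjoint_left.1 hSC hx
  have hne : G.Adj a b → a ≠ b := fun h => h.ne
  have h1 := hd a
  have h2 := hd b
  tauto

open Classical in
/-- the exchange of two pieces -/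
theorem exists_swap {G : SimpleGraph V} {S B B' : Finset V} (hS : Disjoint B S)
    (hS' : Disjoint B' S) (hBB : Disjoint B B') (h : Same G S B B') :
    ∃ τ : V ≃ V, (∀ v, v ∉ B → v ∉ B' → τ v = v) ∧ (∀ v ∈ B, τ v ∈ B') ∧ (∀ v ∈ B', τ v ∈ B) ∧
      ∀ a b, (att G S B').Adj a b ↔ (att G S B).Adj (τ a) (τ b) := by
  rcases isEmpty_or_nonempty V with hV | hV
  · exact ⟨Equiv.refl V, fun v => hV.elim v, fun v => hV.elim v, fun v => hV.elim v,
      fun a => hV.elim a⟩
  obtain ⟨f, hf, h1, h2⟩ := h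
  have hB' : ∀ v ∈ B, v ∉ B' := fun x hx => Finset.disjoint_left.1 hBB hx
  set g : V → V := Function.invFunOn f (B : Set V) with hg
  have gB : ∀ v ∈ B', g v ∈ B := by
    intro v hv
    have := Function.invFunOn_mem (f := f) (s := (B : Set V)) (hf.surjOn (mem_coe.2 hv))
    exact mem_coe.1 this
  have fg : ∀ v ∈ B', f (g v) = v := by
    intro v hv
    exact Function.invFunOn_eq (f := f) (s := (B : Set V)) (hf.surjOn (mem_coe.2 hv))
  have fB : ∀ v ∈ B, f v ∈ B' := fun v hv => mem_coe.1 (hf.mapsTo (mem_coe.2 hv))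
  have gf : ∀ v ∈ B, g (f v) = v := by
    intro v hv
    exact hf.injOn (mem_coe.2 (gB _ (fB v hv))) (mem_coe.2 hv) (fg _ (fB v hv))
  set σ : V → V := fun v => if v ∈ B then f v else if v ∈ B' then g v else v with hσ
  have s1 : ∀ v ∈ B, σ v = f v := fun v hv => by simp only [hσ]; rw [if_pos hv]
  have s2 : ∀ v ∈ B', σ v = g v := fun v hv => by
    simp only [hσ]; rw [if_neg (fun h => hB' v h hv), if_pos hv]
  have s3 : ∀ v, v ∉ B → v ∉ B' → σ v = v := fun v h h' => by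
    simp only [hσ]; rw [if_neg h, if_neg h']
  have hinv : Function.Involutive σ := by
    intro v
    by_cases hv : v ∈ B
    · rw [s1 v hv, s2 _ (fB v hv), gf v hv]
    · by_cases hv' : v ∈ B'
      · rw [s2 v hv', s1 _ (gB v hv'), fg v hv']
      · rw [s3 v hv hv', s3 v hv hv']
  have sS : ∀ s ∈ S, σ s = s := fun s hs =>
    s3 s (fun h => Finset.disjoint_left.1 hS h hs) (fun h => Finset.disjoint_left.1 hS' h hs)
  have key : ∀ a b, a ∈ B → (b ∈ B ∨ b ∈ S) →
      (G.Adj (σ a) (σ b) ↔ G.Adj a b) := by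
    intro a b ha hb
    rcases hb with hb | hb
    · rw [s1 a ha, s1 b hb]
      exact h1 a ha b hb
    · rw [s1 a ha, sS b hb]
      exact h2 a ha b hb
  have half : ∀ a b, a ∈ B' → (b ∈ B' ∨ b ∈ S) → G.Adj a b →
      (G.Adj (σ a) (σ b) ∧ σ a ∈ B ∧ (σ b ∈ B ∨ σ b ∈ S)) := by
    intro a b ha hb hab
    have ha' : σ a ∈ B := by rw [s2 a ha]; exact gB a ha
    have hb' : σ b ∈ B ∨ σ b ∈ S := by
      rcases hb with hb | hb
      · left; rw [s2 b hb]; exact gB b hb
      · right; rw [sS b hb]; exact hb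
    refine ⟨?_, ha', hb'⟩
    rw [← key _ _ ha' hb', hinv a, hinv b]
    exact hab
  refine ⟨hinv.toPerm, s3, fun v hv => ?_, fun v hv => ?_, fun a b => ?_⟩
  · show σ v ∈ B'
    rw [s1 v hv]
    exact fB v hv
  · show σ v ∈ B
    rw [s2 v hv]
    exact gB v hv
  · show (G.Adj a b ∧ ((a ∈ B' ∧ (b ∈ B' ∨ b ∈ S)) ∨ (b ∈ B' ∧ (a ∈ B' ∨ a ∈ S)))) ↔
      (G.Adj (σ a) (σ b) ∧ ((σ a ∈ B ∧ (σ b ∈ B ∨ σ b ∈ S)) ∨ (σ b ∈ B ∧ (σ a ∈ B ∨ σ a ∈ S))))
    constructor
    · rintro ⟨hab, (⟨ha, hb⟩ | ⟨hb, ha⟩)⟩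
      · have := half a b ha hb hab
        exact ⟨this.1, Or.inl this.2⟩
      · have := half b a hb ha hab.symm
        exact ⟨this.1.symm, Or.inr this.2⟩
    · have back : ∀ a b, σ a ∈ B → (σ b ∈ B ∨ σ b ∈ S) → G.Adj (σ a) (σ b) →
          G.Adj a b ∧ a ∈ B' ∧ (b ∈ B' ∨ b ∈ S) := by
        intro a b ha hb hab
        have h3 := (key _ _ ha hb).2 hab
        rw [hinv a, hinv b] at h3
        refine ⟨h3, ?_, ?_⟩
        · rw [← hinv a, s1 _ ha]
          exact fB _ ha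
        · rcases hb with hb | hb
          · left
            rw [← hinv b, s1 _ hb]
            exact fB _ hb
          · right
            have := sS _ hb
            rw [hinv b] at this
            rw [this]
            exact hb
      rintro ⟨hab, (⟨ha, hb⟩ | ⟨hb, ha⟩)⟩
      · have := back a b ha hb hab
        exact ⟨this.1, Or.inl this.2⟩
      · have := back b a hb ha hab.symm
        exact ⟨this.1.symm, Or.inr this.2⟩

variable [Fintype V]

theorem mo_same {p : V → Fin d → ℝ} (hp : MG p) {G H : SimpleGraph V} {S B B' : Finset V}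
    (hS : Disjoint B S) (hS' : Disjoint B' S) (hBB : Disjoint B B') (h : Same G S B B')
    (hH : ∀ a b, H.Adj a b → a ∉ B ∧ a ∉ B') :
    mo (H ⊔ att G S B') p = mo (H ⊔ att G S B) p := by
  obtain ⟨τ, h1, h2, h3, h4⟩ := exists_swap hS hS' hBB h
  apply mo_perm hp τ
  intro a b
  have h5 : H.Adj a b ↔ H.Adj (τ a) (τ b) := by
    constructor
    · intro hab
      have ha := hH a b hab
      have hb := hH b a hab.symm
      rw [h1 a ha.1 ha.2, h1 b hb.1 hb.2]
      exact hab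
    · intro hab
      have ha := hH _ _ hab
      have hb := hH _ _ hab.symm
      have e1 : τ a = a := h1 a (fun h => ha.2 (h2 a h)) (fun h => ha.1 (h3 a h))
      have e2 : τ b = b := h1 b (fun h => hb.2 (h2 b h)) (fun h => hb.1 (h3 b h))
      rw [e1, e2] at hab
      exact hab
  exact or_congr h5 (h4 a b)

open Classical in
/-- **the rule**, for motions -/
theorem rule_mo {p : V → Fin d → ℝ} (hp : MG p) {G : SimpleGraph V} {W S C : Finset V} {k : ℕ}
    (D : Fin k → Finset V) (hS : S ⊆ W) (hC : Piece G W S C) (hD : ∀ i, Piece G W S (D i))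
    (hCD : ∀ i, Disjoint C (D i)) (hDD : ∀ i j, i ≠ j → Disjoint (D i) (D j))
    (hsame : ∀ i, Same G S C (D i)) (hk : d * S.card ≤ k) :
    mo (ins G (W \ C)) p + mo (ins ⊤ S ⊔ att G S C) p = mo (ins G W) p + mo (ins ⊤ S) p := by
  set E := att G S C with hE
  set K : SimpleGraph V := ins ⊤ S with hK
  set U : ℕ → Finset V := fun j =>
    W \ (C ∪ (univ.filter fun i : Fin k => j ≤ (i : ℕ)).biUnion D) with hU
  set H : ℕ → SimpleGraph V := fun j => ins G (U j) with hH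
  have hUW : ∀ j, U j ⊆ W := fun j => sdiff_subset
  have mU : ∀ j x, x ∈ U j ↔ x ∈ W ∧ x ∉ C ∧ ∀ i : Fin k, j ≤ (i : ℕ) → x ∉ D i := by
    intro j x
    simp only [hU, mem_sdiff, mem_union, mem_biUnion, mem_filter, mem_univ, true_and, not_or,
      not_exists, not_and]
  have hSU : ∀ j, S ⊆ U j := by
    intro j s hs
    rw [mU]
    exact ⟨hS hs, fun h => Finset.disjoint_left.1 hC.disj h hs,
      fun i _ h => Finset.disjoint_left.1 (hD i).disj h hs⟩
  have F1 : U k = W \ C := by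
    ext x
    rw [mU, mem_sdiff]
    constructor
    · rintro ⟨h1, h2, _⟩
      exact ⟨h1, h2⟩
    · rintro ⟨h1, h2⟩
      exact ⟨h1, h2, fun i hi => absurd i.2 (by omega)⟩
  have F2 : ∀ j (hj : j < k), H (j + 1) = H j ⊔ att G S (D ⟨j, hj⟩) := by
    intro j hj
    have h1 : D ⟨j, hj⟩ ⊆ U (j + 1) := by
      intro x hx
      rw [mU]
      refine ⟨(hD _).sub hx, fun h => Finset.disjoint_left.1 (hCD _) h hx, fun i hi h => ?_⟩
      have hne : (⟨j, hj⟩ : Fin k) ≠ i := by
        intro h'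
        rw [← h'] at hi
        simp at hi
      exact Finset.disjoint_left.1 (hDD _ _ hne) hx h
    have h2 := ins_split (hD ⟨j, hj⟩) (hUW (j + 1)) h1 (hSU (j + 1))
    show ins G (U (j + 1)) = _
    rw [h2]
    congr 2
    ext x
    rw [mem_sdiff, mU, mU]
    constructor
    · rintro ⟨⟨h3, h4, h5⟩, h6⟩
      refine ⟨h3, h4, fun i hi => ?_⟩
      by_cases hij : (i : ℕ) = j
      · have : i = ⟨j, hj⟩ := Fin.ext hij
        rw [this]
        exact h6
      · exact h5 i (by omega)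
    · rintro ⟨h3, h4, h5⟩
      exact ⟨⟨h3, h4, fun i hi => h5 i (by omega)⟩, h5 ⟨j, hj⟩ le_rfl⟩
  have F3 : ins G W = H k ⊔ E := by
    have := ins_split hC (subset_refl W) hC.sub hS
    rw [this]
    show _ = ins G (U k) ⊔ E
    rw [F1]
  have hHC : ∀ j a b, (H j).Adj a b → a ∉ C := by
    intro j a b hab
    exact ((mU j a).1 hab.2.1).2.1
  have hKS : ∀ a b, K.Adj a b → a ∈ S := fun a b hab => hab.2.1
  have hKC : ∀ a b, K.Adj a b → a ∉ C := fun a b hab h =>
    Finset.disjoint_left.1 hC.disj h (hKS a b hab)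
  have hKD : ∀ i a b, K.Adj a b → a ∉ D i := fun i a b hab h =>
    Finset.disjoint_left.1 (hD i).disj h (hKS a b hab)
  -- (i)
  have h_i : ∀ j (_ : j < k), mo (H (j + 1)) p = mo (H j ⊔ E) p := by
    intro j hj
    rw [F2 j hj]
    apply mo_same hp hC.disj (hD _).disj (hCD _) (hsame _)
    intro a b hab
    have h1 := (mU j a).1 hab.2.1
    exact ⟨h1.2.1, h1.2.2 ⟨j, hj⟩ le_rfl⟩
  have hmono : ∀ j (_ : j < k), H j ≤ H (j + 1) := by
    intro j hj
    rw [F2 j hj]
    exact le_sup_left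
  have h_ii : ∀ j (_ : j < k),
      mo (H (j + 1)) p + mo (H j ⊔ E) p ≤ mo (H j) p + mo (H (j + 1) ⊔ E) p :=
    fun j hj => mo_submod p E (hmono j hj)
  have h_iii : ∀ j (_ : j < k),
      mo (H j ⊔ K) p + mo (K ⊔ E) p ≤ mo K p + mo (H (j + 1) ⊔ K) p := by
    intro j hj
    have h1 := mo_submod p (att G S (D ⟨j, hj⟩)) (le_sup_right : K ≤ H j ⊔ K)
    have h2 : mo (K ⊔ att G S (D ⟨j, hj⟩)) p = mo (K ⊔ E) p :=
      mo_same hp hC.disj (hD _).disj (hCD _) (hsame _)
        (fun a b hab => ⟨hKC a b hab, hKD _ a b hab⟩)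
    have h3 : H (j + 1) ⊔ K = H j ⊔ K ⊔ att G S (D ⟨j, hj⟩) := by
      rw [F2 j hj]
      ac_rfl
    rw [h2] at h1
    rw [h3]
    exact h1
  have h_iv := mo_submod p E (le_sup_right : K ≤ H k ⊔ K)
  have h_iv' : mo (H k ⊔ K ⊔ E) p ≤ mo (H k ⊔ E) p := by
    apply mo_anti
    exact sup_le_sup_right le_sup_left E
  have h_v := mo_submod p K (bot_le : ⊥ ≤ H 0)
  rw [bot_sup_eq] at h_v
  have h_vi : mo (⊥ : SimpleGraph V) p ≤ mo K p + d * S.card := by
    have h1 := mo_le (⊥ : SimpleGraph V) p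
    have h2 := mo_ins ⊤ S p
    have h3 := card_add_card_compl S
    rw [← h3, mul_add] at h1
    rw [← hK] at h2
    omega
  have h_vii := mo_submod p E (le_sup_left : H k ≤ H k ⊔ K)
  have h_glue := mo_glue hp hC.disj (hHC k) (E := E) (fun a b hab => by
    rcases hab.2 with ⟨h, _⟩ | ⟨_, h⟩
    · exact Or.inl h
    · exact h)
  rw [← hK] at h_glue
  have hKE : mo (K ⊔ E) p ≤ mo K p := mo_anti le_sup_left p
  have hx : ∀ j, mo (H j ⊔ E) p ≤ mo (H j) p := fun j => mo_anti le_sup_left p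
  -- decreases
  obtain ⟨δ, hδ⟩ := Nat.exists_eq_add_of_le (hx k)
  obtain ⟨ρ, hρ⟩ := Nat.exists_eq_add_of_le hKE
  have hdec : ∀ i ≤ k, mo (H (k - i) ⊔ E) p + δ ≤ mo (H (k - i)) p := by
    intro i
    induction i with
    | zero =>
      intro _
      rw [Nat.sub_zero]
      omega
    | succ i ih =>
      intro hi
      have h1 := ih (by omega)
      have h2 : k - i = k - (i + 1) + 1 := by omega
      rw [h2] at h1
      have h3 := h_ii (k - (i + 1)) (by omega)
      omega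
  have hsum : ∀ j ≤ k, j * δ + mo (H j) p ≤ mo (H 0) p := by
    intro j
    induction j with
    | zero =>
      intro _
      omega
    | succ j ih =>
      intro hj
      have h1 := ih (by omega)
      have h2 := hdec (k - j) (by omega)
      have h3 : k - (k - j) = j := by omega
      rw [h3] at h2
      have h4 := h_i j (by omega)
      rw [add_mul, one_mul]
      omega
  have hy : ∀ j ≤ k, mo (H 0 ⊔ K) p ≤ mo (H j ⊔ K) p + j * ρ := by
    intro j
    induction j with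
    | zero =>
      intro _
      omega
    | succ j ih =>
      intro hj
      have h1 := ih (by omega)
      have h2 := h_iii j (by omega)
      rw [add_mul, one_mul]
      omega
  have h1 := hsum k le_rfl
  have h2 := hy k le_rfl
  have h3 : δ = ρ := by
    by_contra hne
    have h4 : ρ ≤ δ := by omega
    have h5 : ρ + 1 ≤ δ := by omega
    have h6 : (k + 1) * (ρ + 1) ≤ (k + 1) * δ := Nat.mul_le_mul_left _ h5
    have h7 : (k + 1) * (ρ + 1) = k * ρ + ρ + k + 1 := by ring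
    have h8 : (k + 1) * δ = k * δ + δ := by ring
    omega
  have h9 : mo (ins G (W \ C)) p = mo (H k) p := by
    show _ = mo (ins G (U k)) p
    rw [F1]
  rw [h9, F3]
  omega

open Classical in
theorem gain_mo {p : V → Fin d → ℝ} (hp : MG p) (G : SimpleGraph V) (S C : Finset V) :
    mo (ins ⊤ S) p ≤ mo (ins ⊤ S ⊔ att G S C) p + d * C.card := by
  have h1 := Submodule.finrank_sup_add_finrank_inf_eq (Mot (ins ⊤ S ⊔ att G S C) p)
    (LinearMap.ker (res d Cᶜ))
  have h2 : Mot (ins ⊤ S) p ≤ Mot (ins ⊤ S ⊔ att G S C) p ⊔ LinearMap.ker (res d Cᶜ) := by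
    intro q hq
    obtain ⟨t, ht, hqt⟩ := exists_triv hp S hq
    have e : q = (t + fun v => if v ∈ C then 0 else q v - t v) +
        fun v => if v ∈ C then q v - t v else 0 := by
      funext v
      by_cases hv : v ∈ C
      · simp [hv]
      · simp [hv]
    rw [e]
    refine Submodule.add_mem_sup (Submodule.add_mem _ (ht _) ?_) ?_
    · have hz : ∀ u, u ∈ C ∨ u ∈ S → (if u ∈ C then 0 else q u - t u) = 0 := by
        intro u hu
        by_cases h : u ∈ C
        · rw [if_pos h]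
        · rw [if_neg h, hqt u (hu.resolve_left h), sub_self]
      rw [mem_mot]
      have hatt : ∀ u v, (att G S C).Adj u v → u ∈ C ∨ u ∈ S := by
        intro u v huv
        rcases huv.2 with ⟨h, _⟩ | ⟨_, h⟩
        · exact Or.inl h
        · exact h
      rintro u v (⟨_, hu, hv⟩ | huv) <;> beta_reduce
      · rw [hz u (Or.inr hu), hz v (Or.inr hv)]
        simp
      · rw [hz u (hatt u v huv), hz v (hatt v u huv.symm)]
        simp
    · rw [LinearMap.mem_ker]
      funext x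
      rw [res_apply]
      have hx : (x : V) ∉ C := by
        have := x.2
        simpa using this
      simp [hx]
  have h3 := Submodule.finrank_mono h2
  have h4 := finrank_ker_res d Cᶜ
  rw [compl_compl] at h4
  unfold mo
  omega

end Pool.Agent.Q327.TDK
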